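import Pool.Agent.H16.TO.Targets

/-!
# AM: the axioms define the models of the system
-/

set_option autoImplicit false

namespace Pool.Agent.H74.TW

open Pool.Agent.H16.TO

theorem am_ncard {s : Set ℕ} (h : ∀ a ∈ s, ∀ b ∈ s, a = b) : ¬ 2 ≤ s.ncard := by
  intro h2
  have hf : s.Finite := Set.finite_of_ncard_pos (by omega)
  obtain ⟨a, b, ha, hb, hab⟩ := (Set.one_lt_ncard_iff hf).1 (by omega)
  exact hab (h a ha b hb)

theorem am_labAt {Q : Type} {enc : Q → ℕ} {P : ℕ → ℕ → Prop} {q q' : Q} {a : ℕ}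
    (h : LabAt enc P q a) (h' : LabAt enc P q' a) : q = q' := by
  by_contra hne
  exact h.2 q' (fun h1 => hne h1.symm) h'.1

theorem pf_am : T_SU → T_AM := by
  intro hSU Q _ τ enc henc n hn
  constructor
  · rintro ⟨P, R, key, h0, hinj, h1, A1, A2, A3, A4, A5, A6, A7, A8, A9, A10, A11, A12, A13, A14⟩
    have hex : ∀ a, ∃ q, a < n → LabAt enc P q a ∧ τ.U q := by
      intro a
      by_cases ha : a < n
      · obtain ⟨q, hq⟩ := A1 a ha
        exact ⟨q, fun _ => hq⟩
      · obtain ⟨q, -⟩ := A1 0 hn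
        exact ⟨q, fun h => absurd h ha⟩
    choose lab hlab using hex
    have hu : ∀ a < n, ∀ q, LabAt enc P q a → q = lab a := fun a ha q hq =>
      am_labAt hq (hlab a ha).1
    have hR2 := hSU n id (R 2) (fun a _ b _ h => h)
      (fun a ha b hb h => (h0 a b).1 (A2 a ha b hb h)) A3
      (fun a ha h => A4 a ha (by
        obtain ⟨b, hb, hab⟩ := h
        exact ⟨b, hb, (h0 a b).2 hab⟩))
    have hR3 := hSU n key (R 3) hinj
      (fun a ha b hb h => (h1 a b).1 (A5 a ha b hb h)) A6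
      (fun a ha h => A7 a ha (by
        obtain ⟨b, hb, hab⟩ := h
        exact ⟨b, hb, (h1 a b).2 hab⟩))
    refine ⟨lab, key, hinj, fun a ha => (hlab a ha).2, ?_, ?_, ?_, ?_, ?_, ?_, ?_⟩
    · rcases A8 0 hn with ⟨a, -, ha⟩ | ⟨q, hq, hF⟩
      · exact absurd ((h0 a 0).1 ha) (by omega)
      · rw [← hu 0 hn q hq]; exact hF
    · rcases A9 (n - 1) (by omega) with ⟨b, hb, hb'⟩ | ⟨q, hq, hF⟩
      · exact absurd ((h0 (n - 1) b).1 hb') (by omega)
      · rw [← hu (n - 1) (by omega) q hq]; exact hF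
    · intro a ha
      have h2 : R 2 a (a + 1) := (hR2 a (by omega) (a + 1) ha).2
        ⟨by simp, fun c _ hc => by
          simp only [id] at hc
          omega⟩
      obtain ⟨q, q', ⟨hq, hq'⟩, hC⟩ := A10 a (by omega) (a + 1) ha h2
      rw [← hu a (by omega) q hq, ← hu (a + 1) ha q' hq']
      exact hC
    · intro a ha hmin
      rcases A11 a ha with ⟨c, hc, hca⟩ | ⟨q, hq, hF⟩
      · exact absurd ((h1 c a).1 hca) (not_lt.2 (hmin c hc))
      · rw [← hu a ha q hq]; exact hF
    · intro a ha hmax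
      rcases A12 a ha with ⟨c, hc, hca⟩ | ⟨q, hq, hF⟩
      · exact absurd ((h1 a c).1 hca) (not_lt.2 (hmax c hc))
      · rw [← hu a ha q hq]; exact hF
    · intro a ha b hb hcov
      obtain ⟨q, q', ⟨hq, hq'⟩, hC⟩ := A13 a ha b hb ((hR3 a ha b hb).2 hcov)
      rw [← hu a ha q hq, ← hu b hb q' hq']
      exact hC
    · intro a ha b hb hab hAg
      exact (h1 a b).1 (A14 a ha b hb ((h0 a b).2 hab)
        ⟨lab a, lab b, ⟨(hlab a ha).1, (hlab b hb).1⟩, hAg⟩)
  · rintro ⟨lab, key, hinj, hU, hF1, hL1, hC1, hF2, hL2, hC2, hAg⟩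
    have hlab : ∀ q a, LabAt enc (fun i a => enc (lab a) = i) q a ↔ q = lab a := by
      intro q a
      constructor
      · intro h
        exact (henc h.1).symm
      · rintro rfl
        exact ⟨rfl, fun q' hq' h => hq' (henc h).symm⟩
    refine ⟨fun i a => enc (lab a) = i, fun i a b => if i = 0 then a < b else
      if i = 1 then key a < key b else if i = 2 then b = a + 1 else Cov key n a b, key,
      fun a b => by simp, hinj, fun a b => by simp, ?_⟩
    unfold AxT
    simp only [hlab]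
    simp only [if_true, one_ne_zero, if_false, show (2 : ℕ) ≠ 0 by norm_num,
      show (2 : ℕ) ≠ 1 by norm_num, show (3 : ℕ) ≠ 0 by norm_num, show (3 : ℕ) ≠ 1 by norm_num,
      show (3 : ℕ) ≠ 2 by norm_num]
    refine ⟨fun a ha => ⟨lab a, rfl, hU a ha⟩, fun a _ b _ h => by omega, ?_, ?_,
      fun a _ b _ h => h.1, ?_, ?_, ?_, ?_, ?_, ?_, ?_, ?_, ?_⟩
    · intro b hb
      refine am_ncard ?_
      rintro a ⟨_, ha⟩ a' ⟨_, ha'⟩
      omega
    · rintro a ha ⟨b, hb, hab⟩
      exact ⟨a + 1, by omega, rfl⟩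
    · intro b hb
      refine am_ncard ?_
      rintro a ⟨ha, hab⟩ a' ⟨ha', hab'⟩
      by_contra hne
      rcases lt_trichotomy (key a) (key a') with h | h | h
      · exact hab.2 a' ha' ⟨h, hab'.1⟩
      · exact hne (hinj a ha a' ha' h)
      · exact hab'.2 a ha ⟨h, hab.1⟩
    · rintro a ha ⟨b, hb, hab⟩
      obtain ⟨c, hc, hmin⟩ := Finset.exists_min_image
        ((Finset.range n).filter fun c => key a < key c) key
        ⟨b, Finset.mem_filter.2 ⟨Finset.mem_range.2 hb, hab⟩⟩
      rw [Finset.mem_filter, Finset.mem_range] at hc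
      refine ⟨c, hc.1, hc.2, fun d hd hd' => ?_⟩
      have := hmin d (Finset.mem_filter.2 ⟨Finset.mem_range.2 hd, hd'.1⟩)
      omega
    · intro b hb
      rcases Nat.eq_zero_or_pos b with h | h
      · subst h
        exact Or.inr ⟨lab 0, rfl, hF1⟩
      · exact Or.inl ⟨0, hn, h⟩
    · intro a ha
      by_cases h : a + 1 < n
      · exact Or.inl ⟨a + 1, h, by omega⟩
      · refine Or.inr ⟨lab a, rfl, ?_⟩
        have : a = n - 1 := by omega
        rw [this]; exact hL1
    · rintro a ha b hb rfl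
      exact ⟨lab a, lab (a + 1), ⟨rfl, rfl⟩, hC1 a hb⟩
    · intro b hb
      by_cases h : ∃ a < n, key a < key b
      · exact Or.inl h
      · push Not at h
        exact Or.inr ⟨lab b, rfl, hF2 b hb h⟩
    · intro a ha
      by_cases h : ∃ b < n, key a < key b
      · exact Or.inl h
      · push Not at h
        exact Or.inr ⟨lab a, rfl, hL2 a ha h⟩
    · intro a ha b hb hcov
      exact ⟨lab a, lab b, ⟨rfl, rfl⟩, hC2 a ha b hb hcov⟩
    · rintro a ha b hb hab ⟨q, q', ⟨rfl, rfl⟩, h⟩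
      exact hAg a ha b hb hab h

end Pool.Agent.H74.TW
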