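import Pool.Agent.H16.TO.Targets

/-!
# TB: from cells to bundles
-/

set_option autoImplicit false

namespace Pool.Agent.H74.TW.TB

open Pool.Agent.H16.TO

theorem lin {K j j' k k' : ℕ} (hk : k < K) (hk' : k' < K) (h : j * K + k = j' * K + k') :
    j = j' ∧ k = k' := by
  have hj : j = j' := by
    rcases lt_trichotomy j j' with h1 | h1 | h1
    · have : (j + 1) * K ≤ j' * K := Nat.mul_le_mul_right K h1
      rw [Nat.add_mul] at this
      omega
    · exact h1
    · have : (j' + 1) * K ≤ j * K := Nat.mul_le_mul_right K h1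
      rw [Nat.add_mul] at this
      omega
  subst hj
  exact ⟨rfl, by omega⟩

theorem lt_mul {K j k r : ℕ} (hj : j < r) (hk : k < K) : j * K + k < r * K := by
  have : (j + 1) * K ≤ r * K := Nat.mul_le_mul_right K hj
  rw [Nat.add_mul] at this
  omega

/-- the letter `a` has an outgoing link in direction `j` -/
def E (r K : ℕ) (s : ℕ → ℕ) (j a : ℕ) : Prop := a % (2 * r) = 2 * j + 1 ∧ a / (2 * r) + s j < K

/-- the letter `a` has an incoming link in direction `j` -/
def D (r : ℕ) (s : ℕ → ℕ) (j a : ℕ) : Prop := a % (2 * r) = 2 * j ∧ s j ≤ a / (2 * r)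

/-- the keys -/
def ky (r K : ℕ) (s : ℕ → ℕ) (a : ℕ) : ℕ :=
  if a % (2 * r) % 2 = 1 ∧ a / (2 * r) + s (a % (2 * r) / 2) < K then
    2 * (a % (2 * r) / 2 * K + a / (2 * r))
  else if a % (2 * r) % 2 = 0 ∧ s (a % (2 * r) / 2) ≤ a / (2 * r) then
    2 * (a % (2 * r) / 2 * K + (a / (2 * r) - s (a % (2 * r) / 2))) + 1
  else 2 * r * K + a

section

variable {r K : ℕ} {s : ℕ → ℕ} {j a : ℕ}

theorem ky_E (h : E r K s j a) : ky r K s a = 2 * (j * K + a / (2 * r)) := by
  obtain ⟨h1, h2⟩ := h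
  have e1 : (2 * j + 1) / 2 = j := by omega
  have e2 : (2 * j + 1) % 2 = 1 := by omega
  unfold ky
  rw [h1, e1, e2, if_pos ⟨rfl, h2⟩]

theorem ky_D (h : D r s j a) : ky r K s a = 2 * (j * K + (a / (2 * r) - s j)) + 1 := by
  obtain ⟨h1, h2⟩ := h
  have e1 : (2 * j) / 2 = j := by omega
  have e2 : (2 * j) % 2 = 0 := by omega
  unfold ky
  rw [h1, e1, e2, if_neg (by simp), if_pos ⟨rfl, h2⟩]

theorem cls (hr : 0 < r) (a : ℕ) : (∃ j < r, E r K s j a) ∨ (∃ j < r, D r s j a) ∨
    ky r K s a = 2 * r * K + a := by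
  have hq : a % (2 * r) < 2 * r := Nat.mod_lt _ (by omega)
  unfold ky
  split_ifs with h1 h2
  · exact Or.inl ⟨a % (2 * r) / 2, by omega, by omega, h1.2⟩
  · exact Or.inr (Or.inl ⟨a % (2 * r) / 2, by omega, by omega, h2.2⟩)
  · exact Or.inr (Or.inr rfl)

theorem ky_E_lt (hj : j < r) (h : E r K s j a) : ky r K s a < 2 * r * K := by
  rw [ky_E h]
  have := lt_mul hj (show a / (2 * r) < K by have := h.2; omega)
  rw [Nat.mul_assoc]
  omega

theorem ky_D_lt (hj : j < r) (ha : a / (2 * r) < K) (h : D r s j a) :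
    ky r K s a < 2 * r * K := by
  rw [ky_D h]
  have := lt_mul hj (lt_of_le_of_lt (Nat.sub_le (a / (2 * r)) (s j)) ha)
  rw [Nat.mul_assoc]
  omega

theorem inj (hr : 0 < r) {a b : ℕ} (ha : a / (2 * r) < K) (hb : b / (2 * r) < K)
    (h : ky r K s a = ky r K s b) : a = b := by
  have da := Nat.div_add_mod a (2 * r)
  have db := Nat.div_add_mod b (2 * r)
  rcases cls (K := K) (s := s) hr a with ⟨j, hj, h1⟩ | ⟨j, hj, h1⟩ | h1
  · rcases cls (K := K) (s := s) hr b with ⟨i, hi, h2⟩ | ⟨i, hi, h2⟩ | h2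
    · rw [ky_E h1, ky_E h2] at h
      obtain ⟨e1, e2⟩ := lin (j := j) (j' := i) ha hb (by omega)
      subst e1
      rw [← da, ← db, h1.1, h2.1, e2]
    · rw [ky_E h1, ky_D h2] at h
      omega
    · have := ky_E_lt hj h1
      omega
  · rcases cls (K := K) (s := s) hr b with ⟨i, hi, h2⟩ | ⟨i, hi, h2⟩ | h2
    · rw [ky_D h1, ky_E h2] at h
      omega
    · rw [ky_D h1, ky_D h2] at h
      obtain ⟨e1, e2⟩ := lin (K := K) (j := j) (j' := i)
        (lt_of_le_of_lt (Nat.sub_le (a / (2 * r)) (s j)) ha)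
        (lt_of_le_of_lt (Nat.sub_le (b / (2 * r)) (s i)) hb) (by omega)
      subst e1
      have h3 := h1.2
      have h4 := h2.2
      have e3 : a / (2 * r) = b / (2 * r) := by omega
      rw [← da, ← db, h1.1, h2.1, e3]
    · have := ky_D_lt hj ha h1
      omega
  · rcases cls (K := K) (s := s) hr b with ⟨i, hi, h2⟩ | ⟨i, hi, h2⟩ | h2
    · have := ky_E_lt hi h2
      omega
    · have := ky_D_lt hi hb h2
      omega
    · omega

/-- the other end of an outgoing link -/
theorem up (hj : j < r) (h : E r K s j a) : ∃ c, c / (2 * r) = a / (2 * r) + s j ∧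
    D r s j c ∧ ky r K s c = ky r K s a + 1 ∧ c < 2 * r * K := by
  have e1 : (2 * r * (a / (2 * r) + s j) + 2 * j) / (2 * r) = a / (2 * r) + s j := by
    rw [Nat.mul_add_div (by omega), Nat.div_eq_of_lt (by omega : 2 * j < 2 * r), add_zero]
  have e2 : (2 * r * (a / (2 * r) + s j) + 2 * j) % (2 * r) = 2 * j := by
    rw [Nat.mul_add_mod, Nat.mod_eq_of_lt (by omega)]
  have hD : D r s j (2 * r * (a / (2 * r) + s j) + 2 * j) :=
    ⟨e2, by rw [e1]; exact Nat.le_add_left _ _⟩
  refine ⟨_, e1, hD, ?_, ?_⟩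
  · rw [ky_D hD, ky_E h, e1, Nat.add_sub_cancel]
  · have h2 := h.2
    have : 2 * r * (a / (2 * r) + s j + 1) ≤ 2 * r * K := Nat.mul_le_mul_left _ h2
    rw [Nat.mul_add (2 * r) _ 1] at this
    omega

/-- the other end of an incoming link -/
theorem down (hj : j < r) (ha : a / (2 * r) < K) (h : D r s j a) :
    ∃ c, a / (2 * r) = c / (2 * r) + s j ∧
    E r K s j c ∧ ky r K s c + 1 = ky r K s a ∧ c < 2 * r * K := by
  have h2 := h.2
  have e1 : (2 * r * (a / (2 * r) - s j) + (2 * j + 1)) / (2 * r) = a / (2 * r) - s j := by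
    rw [Nat.mul_add_div (by omega), Nat.div_eq_of_lt (by omega : 2 * j + 1 < 2 * r), add_zero]
  have e2 : (2 * r * (a / (2 * r) - s j) + (2 * j + 1)) % (2 * r) = 2 * j + 1 := by
    rw [Nat.mul_add_mod, Nat.mod_eq_of_lt (by omega)]
  have hE : E r K s j (2 * r * (a / (2 * r) - s j) + (2 * j + 1)) :=
    ⟨e2, by rw [e1, Nat.sub_add_cancel h2]; exact ha⟩
  refine ⟨_, by rw [e1]; omega, hE, ?_, ?_⟩
  · rw [ky_D h, ky_E hE, e1]
  · have h3 : a / (2 * r) - s j + 1 ≤ K :=
      lt_of_le_of_lt (Nat.sub_le (a / (2 * r)) (s j)) ha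
    have : 2 * r * (a / (2 * r) - s j + 1) ≤ 2 * r * K := Nat.mul_le_mul_left _ h3
    rw [Nat.mul_add (2 * r) _ 1] at this
    omega

end

theorem pf_tb : T_TB := by
  intro r T G H K cl s hr hK ⟨S1, S2, S3, S4, S5, S6, S7⟩
  have h2r : 0 < 2 * r := by omega
  have hdiv : ∀ a, a < 2 * r * K → a / (2 * r) < K := fun a ha => Nat.div_lt_of_lt_mul ha
  set lab : ℕ → Fin (2 * r) × Cell r T := fun a =>
    (⟨a % (2 * r), Nat.mod_lt _ h2r⟩, cl (a / (2 * r))) with hlab
  have hE : ∀ j < r, ∀ a < 2 * r * K, (Elow j (lab a) ↔ E r K s j a) := by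
    intro j hj a ha
    have h6 := S6 j hj _ (hdiv a ha)
    have h5 := (S5 j hj).1
    have e : fl (cl (a / (2 * r))) 1 j = false ↔ a / (2 * r) + s j < K := by
      rw [← Bool.not_eq_true, h6]
      omega
    unfold Elow E
    simp only [hlab]
    rw [e]
  have hD : ∀ j < r, ∀ a < 2 * r * K, (Dlow j (lab a) ↔ D r s j a) := by
    intro j hj a ha
    have h5 := (S5 j hj).2 _ (hdiv a ha)
    have e : fl (cl (a / (2 * r))) 0 j = false ↔ s j ≤ a / (2 * r) := by
      rw [← Bool.not_eq_true, h5]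
      omega
    unfold Dlow D
    simp only [hlab]
    rw [e]
  have hN : 0 < 2 * r * K := Nat.mul_pos h2r hK
  refine ⟨lab, ky r K s, fun a ha b hb h => inj hr (hdiv a ha) (hdiv b hb) h,
    fun a ha => S3 _ (hdiv a ha), ?_, ?_, ?_, ?_, ?_, ?_, ?_⟩
  · refine ⟨?_, ?_⟩
    · simp [hlab]
    · simp only [hlab, Nat.zero_div]
      exact S1
  · have e0 : 2 * r * K - 1 = 2 * r * (K - 1) + (2 * r - 1) := by
      obtain ⟨K', rfl⟩ : ∃ K', K = K' + 1 := ⟨K - 1, by omega⟩
      rw [Nat.add_sub_cancel, Nat.mul_add (2 * r) K' 1]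
      omega
    have e1 : (2 * r * K - 1) / (2 * r) = K - 1 := by
      rw [e0, Nat.mul_add_div h2r, Nat.div_eq_of_lt (by omega : 2 * r - 1 < 2 * r), add_zero]
    have e2 : (2 * r * K - 1) % (2 * r) = 2 * r - 1 := by
      rw [e0, Nat.mul_add_mod, Nat.mod_eq_of_lt (by omega)]
    refine ⟨?_, ?_⟩
    · simp only [hlab, e2]
      omega
    · simp only [hlab, e1]
      exact S2
  · intro a ha
    have da := Nat.div_add_mod a (2 * r)
    have hq : a % (2 * r) < 2 * r := Nat.mod_lt _ h2r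
    by_cases h : a % (2 * r) + 1 < 2 * r
    · left
      have e0 : a + 1 = 2 * r * (a / (2 * r)) + (a % (2 * r) + 1) := by omega
      have e1 : (a + 1) / (2 * r) = a / (2 * r) := by
        conv_lhs => rw [e0]
        rw [Nat.mul_add_div h2r, Nat.div_eq_of_lt h, add_zero]
      have e2 : (a + 1) % (2 * r) = a % (2 * r) + 1 := by
        conv_lhs => rw [e0]
        rw [Nat.mul_add_mod, Nat.mod_eq_of_lt h]
      refine ⟨?_, ?_⟩
      · simp only [hlab, e2]
      · simp only [hlab, e1]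
    · right
      have h' : a % (2 * r) + 1 = 2 * r := by omega
      have e0 : a + 1 = 2 * r * (a / (2 * r) + 1) := by
        rw [Nat.mul_add (2 * r) _ 1]
        omega
      have e1 : (a + 1) / (2 * r) = a / (2 * r) + 1 := by
        rw [e0, Nat.mul_div_cancel_left _ h2r]
      have e2 : (a + 1) % (2 * r) = 0 := by
        rw [e0, Nat.mul_mod_right]
      refine ⟨?_, ?_, ?_⟩
      · simp only [hlab]
        exact h'
      · simp only [hlab, e2]
      · simp only [hlab, e1]
        refine S4 _ ?_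
        rw [← e1]
        exact hdiv _ ha
  · intro a ha hmin j hj hDl
    rw [hD j hj a ha] at hDl
    obtain ⟨c, -, -, hc, hcN⟩ := down hj (hdiv a ha) hDl
    have := hmin c hcN
    omega
  · intro a ha hmax j hj hEl
    rw [hE j hj a ha] at hEl
    obtain ⟨c, -, -, hc, hcN⟩ := up hj hEl
    have := hmax c hcN
    omega
  · intro a ha b hb hcov j hj
    rw [hE j hj a ha, hD j hj b hb]
    have key : E r K s j a → D r s j b ∧ b / (2 * r) = a / (2 * r) + s j := by
      intro h
      obtain ⟨c, hc1, hc2, hc3, hcN⟩ := up hj h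
      have h1 := hcov.1
      have h2 := hcov.2 c hcN
      have e : ky r K s b = ky r K s c := by omega
      have e' := inj hr (hdiv b hb) (hdiv c hcN) e
      rw [e']
      exact ⟨hc2, hc1⟩
    refine ⟨⟨fun h => (key h).1, fun h => ?_⟩, fun h => ?_⟩
    · obtain ⟨c, hc1, hc2, hc3, hcN⟩ := down hj (hdiv b hb) h
      have h1 := hcov.1
      have h2 := hcov.2 c hcN
      have e : ky r K s a = ky r K s c := by omega
      have e' := inj hr (hdiv a ha) (hdiv c hcN) e
      rw [e']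
      exact hc2
    · have h1 := (key h).2
      have h2 := h.2
      have h3 := S7 j hj _ h2
      simp only [hlab]
      rw [h1]
      exact h3
  · rintro a ha b hb hab ⟨j, hj, ⟨h1, h2⟩ | ⟨h1, h2⟩⟩
    · rw [hE j hj a ha] at h1
      rw [hE j hj b hb] at h2
      rw [ky_E h1, ky_E h2]
      have da := Nat.div_add_mod a (2 * r)
      have db := Nat.div_add_mod b (2 * r)
      rw [h1.1] at da
      rw [h2.1] at db
      have h3 : 2 * r * (a / (2 * r)) < 2 * r * (b / (2 * r)) := by omega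
      have h4 := lt_of_mul_lt_mul_left h3 (Nat.zero_le _)
      omega
    · rw [hD j hj a ha] at h1
      rw [hD j hj b hb] at h2
      rw [ky_D h1, ky_D h2]
      have da := Nat.div_add_mod a (2 * r)
      have db := Nat.div_add_mod b (2 * r)
      rw [h1.1] at da
      rw [h2.1] at db
      have h3 : 2 * r * (a / (2 * r)) < 2 * r * (b / (2 * r)) := by omega
      have h4 := lt_of_mul_lt_mul_left h3 (Nat.zero_le _)
      have h5 := h1.2
      omega

end Pool.Agent.H74.TW.TB
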